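import Mathlib

set_option autoImplicit false

/-!
Symmetric tensor powers of a finite graph (loops allowed, no multiple edges) on `Fin n`,
following the problem file of MP_6750b5_co.
-/

namespace Pool.Agent.Work.MP_6750b5_co

/-- `mult i l` is the number of entries of the tuple `i` equal to `l`. -/
def mult {n k : ℕ} (i : Fin k → Fin n) (l : Fin n) : ℕ :=
  (Finset.univ.filter fun t => i t = l).card

/-- `multinom i` is `k! / (m_1! ... m_n!)`, where `m_l = mult i l`. -/
def multinom {n k : ℕ} (i : Fin k → Fin n) : ℕ :=
  k.factorial / ∏ l : Fin n, (mult i l).factorial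

/-- `orb i` is the set of all rearrangements of the tuple `i`. -/
def orb {n k : ℕ} (i : Fin k → Fin n) : Finset (Fin k → Fin n) :=
  Finset.univ.filter fun p => ∃ s : Equiv.Perm (Fin k), p = i ∘ s

/-- The vertices of the `k`-th symmetric tensor power: the nondecreasing `k`-tuples. -/
abbrev SymVertex (n k : ℕ) : Type := {i : Fin k → Fin n // Monotone i}

open Classical in
/-- The weight function of the graph with edge relation `E`: `1` on edges (and loops),
`0` otherwise. -/
noncomputable def omega {n : ℕ} (E : Fin n → Fin n → Prop) (a b : Fin n) : ℝ :=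
  if E a b then 1 else 0

/-- The edge weights of the `k`-th symmetric tensor power of the graph `E`. -/
noncomputable def symWeight {n : ℕ} (E : Fin n → Fin n → Prop) (k : ℕ)
    (i j : SymVertex n k) : ℝ :=
  ((multinom i.1 : ℝ) * (multinom j.1 : ℝ)) ^ (-(1 / 2) : ℝ) *
    ∑ p ∈ orb i.1, ∑ q ∈ orb j.1, ∏ l : Fin k, omega E (p l) (q l)

/-- `(V, w)` is a weighted subgraph of `(W, w')`. -/
def IsWeightedSubgraph {V W : Type} (w : V → V → ℝ) (w' : W → W → ℝ) : Prop :=
  ∃ φ : V → W, Function.Injective φ ∧ ∀ x y : V, w x y ≤ w' (φ x) (φ y)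

section basic

variable {n k : ℕ}

lemma sum_mult (i : Fin k → Fin n) : ∑ l, mult i l = k := by
  classical
  have := Finset.card_eq_sum_card_fiberwise (s := (Finset.univ : Finset (Fin k)))
    (t := (Finset.univ : Finset (Fin n))) (f := i) (fun _ _ => Finset.mem_coe.2 (Finset.mem_univ _))
  simpa [mult] using this.symm

lemma multinom_eq (i : Fin k → Fin n) :
    multinom i = Nat.multinomial Finset.univ (mult i) := by
  unfold multinom Nat.multinomial
  rw [sum_mult]

lemma multinom_pos (i : Fin k → Fin n) : 0 < multinom i := by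
  rw [multinom_eq]; exact Nat.multinomial_pos _ _

lemma mem_orb {i p : Fin k → Fin n} : p ∈ orb i ↔ ∃ s : Equiv.Perm (Fin k), p = i ∘ s := by
  simp [orb]

lemma omega_nonneg (E : Fin n → Fin n → Prop) (a b : Fin n) : 0 ≤ omega E a b := by
  unfold omega; split_ifs <;> norm_num

lemma omega_pos_iff (E : Fin n → Fin n → Prop) (a b : Fin n) : 0 < omega E a b ↔ E a b := by
  unfold omega; split_ifs with h <;> simp [h]

lemma prod_omega_nonneg (E : Fin n → Fin n → Prop) (p q : Fin k → Fin n) :
    0 ≤ ∏ l : Fin k, omega E (p l) (q l) :=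
  Finset.prod_nonneg fun _ _ => omega_nonneg E _ _

lemma prod_omega_pos_iff (E : Fin n → Fin n → Prop) (p q : Fin k → Fin n) :
    0 < ∏ l : Fin k, omega E (p l) (q l) ↔ ∀ l, E (p l) (q l) := by
  constructor
  · intro h l
    rw [← omega_pos_iff E]
    rcases (omega_nonneg E (p l) (q l)).lt_or_eq with h' | h'
    · exact h'
    · exfalso
      rw [Finset.prod_eq_zero (Finset.mem_univ l) h'.symm] at h
      exact lt_irrefl _ h
  · intro h
    exact Finset.prod_pos fun l _ => (omega_pos_iff E _ _).2 (h l)

/-- A weight of the symmetric tensor power is positive iff some rearrangements are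
adjacent coordinate by coordinate. -/
lemma symWeight_pos_iff (E : Fin n → Fin n → Prop) (i j : SymVertex n k) :
    0 < symWeight E k i j ↔ ∃ p ∈ orb i.1, ∃ q ∈ orb j.1, ∀ l, E (p l) (q l) := by
  have hc : (0 : ℝ) < ((multinom i.1 : ℝ) * (multinom j.1 : ℝ)) ^ (-(1 / 2) : ℝ) := by
    apply Real.rpow_pos_of_pos
    exact mul_pos (by exact_mod_cast multinom_pos _) (by exact_mod_cast multinom_pos _)
  unfold symWeight
  rw [mul_pos_iff_of_pos_left hc]
  constructor
  · intro h
    by_contra hcon
    push Not at hcon
    have : ∑ p ∈ orb i.1, ∑ q ∈ orb j.1, ∏ l : Fin k, omega E (p l) (q l) ≤ 0 := by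
      apply Finset.sum_nonpos
      intro p hp
      apply Finset.sum_nonpos
      intro q hq
      obtain ⟨l, hl⟩ := hcon p hp q hq
      by_contra h'
      push Not at h'
      exact hl ((prod_omega_pos_iff E p q).1 h' l)
    exact absurd h (not_lt.2 this)
  · rintro ⟨p, hp, q, hq, h⟩
    apply Finset.sum_pos' (fun p _ => Finset.sum_nonneg fun q _ => prod_omega_nonneg E p q)
    refine ⟨p, hp, ?_⟩
    apply Finset.sum_pos' (fun q _ => prod_omega_nonneg E p q)
    exact ⟨q, hq, (prod_omega_pos_iff E p q).2 h⟩

/-- The number of entries of `i` on the side `true` of a two-colouring. -/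
def level (side : Fin n → Bool) (i : Fin k → Fin n) : ℕ :=
  (Finset.univ.filter fun t => side (i t) = true).card

lemma level_of_mem_orb (side : Fin n → Bool) {i p : Fin k → Fin n} (h : p ∈ orb i) :
    level side p = level side i := by
  obtain ⟨s, rfl⟩ := mem_orb.1 h
  unfold level
  apply Finset.card_bij (fun t _ => s t)
  · intro t ht; simpa using ht
  · intro a _ b _ hab; exact s.injective hab
  · intro b hb; exact ⟨s.symm b, by simpa using hb, by simp⟩

lemma level_add_level (side : Fin n → Bool) (p q : Fin k → Fin n)
    (h : ∀ l, side (p l) ≠ side (q l)) : level side p + level side q = k := by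
  unfold level
  have : (Finset.univ.filter fun t => side (q t) = true) =
      Finset.univ.filter fun t => ¬ side (p t) = true := by
    ext t
    have := h t
    simp only [Finset.mem_filter, Finset.mem_univ, true_and]
    cases h1 : side (p t) <;> cases h2 : side (q t) <;> simp_all
  rw [this, Finset.card_filter_add_card_filter_not]
  simp

/-- In a power of a bipartite graph, adjacent vertices have complementary levels. -/
lemma level_add_of_pos (E : Fin n → Fin n → Prop) (side : Fin n → Bool)
    (hside : ∀ a b, E a b → side a ≠ side b) (i j : SymVertex n k)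
    (h : 0 < symWeight E k i j) : level side i.1 + level side j.1 = k := by
  obtain ⟨p, hp, q, hq, hpq⟩ := (symWeight_pos_iff E i j).1 h
  rw [← level_of_mem_orb side hp, ← level_of_mem_orb side hq]
  exact level_add_level side p q fun l => hside _ _ (hpq l)

end basic

end Pool.Agent.Work.MP_6750b5_co
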